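import Pool.Agent.H31.Lop

set_option autoImplicit false
open Finset Pool.Agent.H31.AccDefs

namespace Pool.Agent.Results.MP_626dc7_co.Linear

/-- The 2-degree of `F`. -/
def d2 {n : ℕ} (F : Finset (Finset (Fin n))) : ℕ :=
  (univ.powersetCard 2).sup fun D => #(F.filter (D ⊆ ·))

theorem result : ∃ c : ℝ, 0 < c ∧ ∃ N : ℕ, ∀ n ≥ N, ∀ F : Finset (Finset (Fin n)), Blocks F →
    c * n ≤ d2 F := by
  refine ⟨1 / 400000, by norm_num, 6, fun n hn F h => ?_⟩
  obtain ⟨a, ha⟩ := H31.Lop.main hn h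
  have : #(F.filter (a ∈ ·)) ≤ n * d2 F := by
    refine (card_le_card (t := (univ.erase a).biUnion fun b => F.filter ({a, b} ⊆ ·)) fun X hX => ?_).trans
      ((card_biUnion_le_card_mul _ _ (d2 F) fun b hb => le_sup (f := fun D => #(F.filter (D ⊆ ·)))
        (mem_powersetCard.mpr ⟨subset_univ _, card_pair (ne_of_mem_erase hb).symm⟩)).trans
        (Nat.mul_le_mul_right _ (by simp)))
    obtain ⟨h1, h2⟩ := mem_filter.mp hX
    obtain ⟨b, b1, b2⟩ := exists_mem_ne (show 1 < #X by rw [h.1 X h1]; omega) a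
    exact mem_biUnion.mpr ⟨b, by simpa using b2, mem_filter.mpr ⟨h1, by simp [insert_subset_iff, h2, b1]⟩⟩
  have : n ≤ 400000 * d2 F := Nat.le_of_mul_le_mul_left (by nlinarith) (show 0 < n by omega)
  have : (n : ℝ) ≤ 400000 * d2 F := by exact_mod_cast this
  linarith

end Pool.Agent.Results.MP_626dc7_co.Linear
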